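import Pool.Agent.Helper68.XL.F
import Pool.Agent.Helper73.XL.KWM
import Pool.Agent.Helper35.XL.LI
import Pool.Agent.Helper88.XL.Fin
import Pool.Agent.Helper77.XL.LawT
import Pool.Agent.Helper13.XL.BsT
import Pool.Agent.Helper22.XL.Meas

/-!
# XL F, closed form (MP_fb29e9_nt)
-/

open MeasureTheory Real Set Filter Topology unitInterval

set_option autoImplicit false

namespace Pool.Agent.Helper68.XL

open Pool.Agent.Helper22.AE
open Pool.Agent.Helper60.AD
open Pool.Agent.Helper22.XL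

/-- F: the package for the random series -/
theorem main_ser_XP {H₀ : ℝ → ℝ} (h0 : ContDiff ℝ 2 H₀) (hp : Function.Periodic H₀ (2 * π)) {s : ℕ → ℝ}
    (hs : Summable (fun l : ℕ => (l : ℝ) ^ 2 * |s l|)) (hs0 : ∀ l, s l ≠ 0) :
    ∀ᵐ x ∂(Measure.infinitePi fun _ : ℕ => (volume : Measure (I × I))),
      (∀ θ, 0 < Hx H₀ s x θ + deriv (deriv (Hx H₀ s x)) θ) → XP (Hx H₀ s x) :=
  main_ser_XP_of TailP
    (fun H N => Pool.Agent.Helper73.XL.zs_facts H N)
    (fun {_} a b {_} c d => Pool.Agent.Helper35.XL.li_ser a b c d)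
    (fun {_} h => Pool.Agent.Helper88.XL.fin_tail h)
    (fun {_} a b c d e {_} f g => Pool.Agent.Helper77.XL.xf_of_tail a b c d e f g)
    (fun {_} a b c d e {_} f g => Pool.Agent.Helper77.XL.xs_of_tail a b c d e f g)
    (fun {_} a b c d {_} e f g => Pool.Agent.Helper13.XL.bs_of_tail a b c d e f g)
    (fun {_} a b {_} c N {_} d => Pool.Agent.Helper22.XL.mF_meas a b c N d)
    (fun {_} a b {_} c N {_} d => Pool.Agent.Helper22.XL.mS_meas a b c N d)
    (fun {_} a b {_} c => Pool.Agent.Helper35.XL.li_meas a b c)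
    h0 hp hs hs0

end Pool.Agent.Helper68.XL
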