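import Pool.Agent.Helper22.XL.Defs
import Pool.Agent.Helper60.MM.M7

/-!
# XL F (MP_fb29e9_nt): from the finite theorem to the series
-/

open MeasureTheory Real Set Filter Topology unitInterval

set_option autoImplicit false

namespace Pool.Agent.Helper68.XL

open Pool.Agent.Helper22.AE
open Pool.Agent.Helper22.AC (cntc)
open Pool.Agent.Helper93.EX (Mx ak prim sn fJ)
open Pool.Agent.Helper22.WC (SupE SupQ LimS PM3)
open Pool.Agent.Helper92.LW (LimF fjk PM2 ser_gen)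
open Pool.Agent.Helper68.LW (fjk_cont fjk_supp)
open Pool.Agent.Helper60.AD
open Pool.Agent.Helper22.XL

/-- closeness of two families of measurable functions is measurable -/
theorem close_meas {α : Type*} [MeasurableSpace α] (f g : ℕ → α → ℝ) (hf : ∀ X : ℕ, 1 ≤ X → Measurable (f X)) (hg : ∀ N, Measurable (g N)) :
    MeasurableSet {x : α | ∀ n : ℕ, ∃ n0 : ℕ, ∀ N : ℕ, n0 ≤ N → ∃ X₀ : ℕ, ∀ X : ℕ, X₀ + 1 ≤ X →
      |f X x - g N x| ≤ 1 / ((n : ℝ) + 1)} := by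
  have hset : {x : α | ∀ n : ℕ, ∃ n0 : ℕ, ∀ N : ℕ, n0 ≤ N → ∃ X₀ : ℕ, ∀ X : ℕ, X₀ + 1 ≤ X →
      |f X x - g N x| ≤ 1 / ((n : ℝ) + 1)} =
      ⋂ n : ℕ, ⋃ n0 : ℕ, ⋂ N : ℕ, ⋂ _ : n0 ≤ N, ⋃ X₀ : ℕ, ⋂ X : ℕ, ⋂ _ : X₀ + 1 ≤ X, {x : α |
        |f X x - g N x| ≤ 1 / ((n : ℝ) + 1)} := by
    ext x
    simp only [mem_ofPred_eq, mem_iUnion, mem_iInter]
  rw [hset]
  refine MeasurableSet.iInter fun n => MeasurableSet.iUnion fun n0 => MeasurableSet.iInter fun N => MeasurableSet.iInter fun _ =>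
    MeasurableSet.iUnion fun X₀ => MeasurableSet.iInter fun X => MeasurableSet.iInter fun hX => ?_
  refine measurableSet_le ?_ measurable_const
  exact continuous_abs.measurable.comp ((hf X (by omega)).sub (hg N))

/-- `rho > 0 → (LI → P)` is measurable -/
theorem imp_meas {H₀ : ℝ → ℝ} (h0 : ContDiff ℝ 2 H₀) (hp : Function.Periodic H₀ (2 * π)) {s : ℕ → ℝ}
    (hs : Summable (fun l : ℕ => (l : ℝ) ^ 2 * |s l|)) {Li P : (ℝ → ℝ) → Prop}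
    (hL : MeasurableSet {x : ℕ → I × I | Li (Hx H₀ s x)}) (hP : MeasurableSet {x : ℕ → I × I | P (Hx H₀ s x)}) :
    MeasurableSet {x : ℕ → I × I | (∀ θ, 0 < Hx H₀ s x θ + deriv (deriv (Hx H₀ s x)) θ) → (Li (Hx H₀ s x) → P (Hx H₀ s x))} := by
  have hS := Pool.Agent.Helper22.AD.rho_meas h0 hp hs
  have hset : {x : ℕ → I × I | (∀ θ, 0 < Hx H₀ s x θ + deriv (deriv (Hx H₀ s x)) θ) → (Li (Hx H₀ s x) → P (Hx H₀ s x))} =
      {x : ℕ → I × I | ∀ θ, 0 < Hx H₀ s x θ + deriv (deriv (Hx H₀ s x)) θ}ᶜ ∪ ({x : ℕ → I × I | Li (Hx H₀ s x)}ᶜ ∪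
        {x : ℕ → I × I | P (Hx H₀ s x)}) := by
    ext x
    simp only [mem_ofPred_eq, mem_union, mem_compl_iff]
    tauto
  rw [hset]
  exact hS.compl.union (hL.compl.union hP)

/-- moments of lower order -/
theorem bs_low (zs_facts : ∀ (H : ℝ → ℝ) (N : ℕ), (Continuous fun u => Zs H N u (0, 0)) ∧ (Continuous fun u => ZS H N u) ∧
      (∀ u, BddAbove (range fun c : ℝ × ℝ => |Zs H N u c|)) ∧ (∃ B : ℝ, ∀ u, ZS H N u ≤ B) ∧ ∀ u, 0 ≤ ZS H N u ∧ |Zs H N u (0, 0)| ≤ ZS H N u)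
    {H : ℝ → ℝ} {J : ℕ} (hJ : J ≤ 3) (h3 : BS 3 H) : BS J H := by
  obtain ⟨C, hC⟩ := h3
  refine ⟨C + 1, fun N hN => ?_⟩
  have h1 := hC N (by omega)
  obtain ⟨-, hc, -, -, h0⟩ := zs_facts H (2 ^ N)
  unfold mS at h1 ⊢
  have hcomp : IsCompact (Icc (0 : {k // k ∈ prim (2 ^ N)} → ℝ) 1) := isCompact_Icc
  have hi1 : IntegrableOn (fun u : {k // k ∈ prim (2 ^ N)} → ℝ => ZS H (2 ^ N) u ^ (2 * J)) (Icc 0 1) :=
    (hc.pow _).continuousOn.integrableOn_compact hcomp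
  have hi3 : IntegrableOn (fun u : {k // k ∈ prim (2 ^ N)} → ℝ => ZS H (2 ^ N) u ^ (2 * 3)) (Icc 0 1) :=
    (hc.pow _).continuousOn.integrableOn_compact hcomp
  have hi0 : IntegrableOn (fun _ : {k // k ∈ prim (2 ^ N)} → ℝ => (1 : ℝ)) (Icc 0 1) :=
    continuous_const.continuousOn.integrableOn_compact hcomp
  have h2 : ∫ u in Icc (0 : {k // k ∈ prim (2 ^ N)} → ℝ) 1, ZS H (2 ^ N) u ^ (2 * J) ≤
      ∫ u in Icc (0 : {k // k ∈ prim (2 ^ N)} → ℝ) 1, (1 + ZS H (2 ^ N) u ^ (2 * 3)) := by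
    refine setIntegral_mono_on hi1 (hi0.add hi3) measurableSet_Icc fun u _ => ?_
    have h4 := (h0 u).1
    rcases le_total (ZS H (2 ^ N) u) 1 with h5 | h5
    · have h6 : ZS H (2 ^ N) u ^ (2 * J) ≤ 1 := pow_le_one₀ h4 h5
      have h7 : 0 ≤ ZS H (2 ^ N) u ^ (2 * 3) := by positivity
      linarith
    · have h6 : ZS H (2 ^ N) u ^ (2 * J) ≤ ZS H (2 ^ N) u ^ (2 * 3) := pow_le_pow_right₀ h5 (by omega)
      linarith
  refine h2.trans ?_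
  rw [integral_add hi0 hi3]
  have h4 : ∫ _u in Icc (0 : {k // k ∈ prim (2 ^ N)} → ℝ) 1, (1 : ℝ) = 1 := by
    rw [setIntegral_const, smul_eq_mul, mul_one, measureReal_def, Real.volume_Icc_pi]
    simp
  rw [h4]
  push_cast
  linarith

/-- F -/
theorem main_ser_XP_of (TailP : ℕ → (ℝ → ℝ) → Prop)
    (zs_facts : ∀ (H : ℝ → ℝ) (N : ℕ), (Continuous fun u => Zs H N u (0, 0)) ∧ (Continuous fun u => ZS H N u) ∧
      (∀ u, BddAbove (range fun c : ℝ × ℝ => |Zs H N u c|)) ∧ (∃ B : ℝ, ∀ u, ZS H N u ≤ B) ∧ ∀ u, 0 ≤ ZS H N u ∧ |Zs H N u (0, 0)| ≤ ZS H N u)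
    (li_ser : ∀ {H₀ : ℝ → ℝ}, ContDiff ℝ 2 H₀ → Function.Periodic H₀ (2 * π) → ∀ {s : ℕ → ℝ},
      Summable (fun l : ℕ => (l : ℝ) ^ 2 * |s l|) → (∀ l, s l ≠ 0) →
      ∀ᵐ x ∂(Measure.infinitePi fun _ : ℕ => (volume : Measure (I × I))), LI (Hx H₀ s x))
    (fin_tail : ∀ {J : ℕ}, 3 ≤ J → ∃ L₀ : ℕ, ∀ {L : ℕ}, L₀ ≤ L → ∀ {H₀ : ℝ → ℝ}, ContDiff ℝ 2 H₀ → Function.Periodic H₀ (2 * π) →
      ∀ᵐ w : (Fin L → ℝ) × (Fin L → ℝ), (∀ θ, 0 < Hw H₀ w θ + deriv (deriv (Hw H₀ w)) θ) → TailP J (Hw H₀ w))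
    (xf_of_tail : ∀ {H : ℝ → ℝ}, ContDiff ℝ 2 H → Function.Periodic H (2 * π) → (∀ θ, 0 < H θ + deriv (deriv H) θ) → LI H →
      TailP 3 H → ∀ {φ : ℝ → ℝ}, Continuous φ → HasCompactSupport φ → XF H φ)
    (xs_of_tail : ∀ {H : ℝ → ℝ}, ContDiff ℝ 2 H → Function.Periodic H (2 * π) → (∀ θ, 0 < H θ + deriv (deriv H) θ) → LI H →
      TailP 3 H → ∀ {φ : ℝ → ℝ}, Continuous φ → HasCompactSupport φ → XS H φ)
    (bs_of_tail : ∀ {H : ℝ → ℝ}, ContDiff ℝ 2 H → Function.Periodic H (2 * π) → (∀ θ, 0 < H θ + deriv (deriv H) θ) → LI H →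
      ∀ {J : ℕ}, 3 ≤ J → TailP J H →
      (∃ C : ℝ, ∀ X : ℝ, 1 ≤ X → Pool.Agent.Helper92.MM.mom J H X ≤ ENNReal.ofReal (C * X ^ (1 + J))) → BS J H)
    (mF_meas : ∀ {H₀ : ℝ → ℝ}, ContDiff ℝ 2 H₀ → Function.Periodic H₀ (2 * π) → ∀ {s : ℕ → ℝ},
      Summable (fun l : ℕ => (l : ℝ) ^ 2 * |s l|) → ∀ (N : ℕ) {φ : ℝ → ℝ}, Continuous φ →
      Measurable fun x : ℕ → I × I => mF N φ (Hx H₀ s x))
    (mS_meas : ∀ {H₀ : ℝ → ℝ}, ContDiff ℝ 2 H₀ → Function.Periodic H₀ (2 * π) → ∀ {s : ℕ → ℝ},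
      Summable (fun l : ℕ => (l : ℝ) ^ 2 * |s l|) → ∀ (N : ℕ) {φ : ℝ → ℝ}, Continuous φ →
      Measurable fun x : ℕ → I × I => mS N φ (Hx H₀ s x))
    (li_meas : ∀ {H₀ : ℝ → ℝ}, ContDiff ℝ 2 H₀ → Function.Periodic H₀ (2 * π) → ∀ {s : ℕ → ℝ},
      Summable (fun l : ℕ => (l : ℝ) ^ 2 * |s l|) → MeasurableSet {x : ℕ → I × I | LI (Hx H₀ s x)})
    {H₀ : ℝ → ℝ} (h0 : ContDiff ℝ 2 H₀) (hp : Function.Periodic H₀ (2 * π)) {s : ℕ → ℝ}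
    (hs : Summable (fun l : ℕ => (l : ℝ) ^ 2 * |s l|)) (hs0 : ∀ l, s l ≠ 0) :
    ∀ᵐ x ∂(Measure.infinitePi fun _ : ℕ => (volume : Measure (I × I))),
      (∀ θ, 0 < Hx H₀ s x θ + deriv (deriv (Hx H₀ s x)) θ) → XP (Hx H₀ s x) := by
  -- fixed centre
  have hF : ∀ j K : ℕ, ∀ᵐ x ∂(Measure.infinitePi fun _ : ℕ => (volume : Measure (I × I))),
      (∀ θ, 0 < Hx H₀ s x θ + deriv (deriv (Hx H₀ s x)) θ) → (LI (Hx H₀ s x) → XF (Hx H₀ s x) (fjk j K)) := by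
    intro j K
    refine ser_gen (Q := fun H => LI H → XF H (fjk j K)) ?_ h0 hp hs hs0 ?_
    · obtain ⟨L₀, hL₀⟩ := fin_tail (le_refl 3)
      refine ⟨L₀, fun {L} hL {H₁} h1 h1p => ?_⟩
      filter_upwards [hL₀ hL h1 h1p] with w hw hr hLI
      exact xf_of_tail (Hw_smooth h1 w) (Hw_per h1p w) hr hLI (hw hr) (fjk_cont j K) (fjk_supp j K)
    · refine imp_meas (Li := LI) (P := fun H => XF H (fjk j K)) h0 hp hs (li_meas h0 hp hs) ?_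
      refine close_meas (fun X x => (X : ℝ)⁻¹ * (∫ R in Icc (X : ℝ) (2 * X), fjk j K ((cntc (Hx H₀ s x) (0, 0) R - area (Hx H₀ s x) * R ^ 2) / sqrt R)))
        (fun N x => mF (2 ^ N) (fjk j K) (Hx H₀ s x)) (fun X hX => ?_) (fun N => mF_meas h0 hp hs _ (fjk_cont j K))
      exact (Pool.Agent.Helper40.LW.lim_measF h0 hp hs _ (by exact_mod_cast hX) (fjk_cont j K)).const_mul _
  have hS : ∀ j K : ℕ, ∀ᵐ x ∂(Measure.infinitePi fun _ : ℕ => (volume : Measure (I × I))),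
      (∀ θ, 0 < Hx H₀ s x θ + deriv (deriv (Hx H₀ s x)) θ) → (LI (Hx H₀ s x) → XS (Hx H₀ s x) (fjk j K)) := by
    intro j K
    refine ser_gen (Q := fun H => LI H → XS H (fjk j K)) ?_ h0 hp hs hs0 ?_
    · obtain ⟨L₀, hL₀⟩ := fin_tail (le_refl 3)
      refine ⟨L₀, fun {L} hL {H₁} h1 h1p => ?_⟩
      filter_upwards [hL₀ hL h1 h1p] with w hw hr hLI
      exact xs_of_tail (Hw_smooth h1 w) (Hw_per h1p w) hr hLI (hw hr) (fjk_cont j K) (fjk_supp j K)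
    · refine imp_meas (Li := LI) (P := fun H => XS H (fjk j K)) h0 hp hs (li_meas h0 hp hs) ?_
      refine close_meas (fun X x => (X : ℝ)⁻¹ * (∫ R in Icc (X : ℝ) (2 * X), fjk j K (SupQ (Hx H₀ s x) R / sqrt R)))
        (fun N x => mS (2 ^ N) (fjk j K) (Hx H₀ s x)) (fun X hX => ?_) (fun N => mS_meas h0 hp hs _ (fjk_cont j K))
      exact (Pool.Agent.Helper35.WCS.lim_measS h0 hp hs (by exact_mod_cast hX) (fjk_cont j K)).const_mul _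
  have hB : ∀ J : ℕ, 3 ≤ J → ∀ᵐ x ∂(Measure.infinitePi fun _ : ℕ => (volume : Measure (I × I))),
      (∀ θ, 0 < Hx H₀ s x θ + deriv (deriv (Hx H₀ s x)) θ) → (LI (Hx H₀ s x) → BS J (Hx H₀ s x)) := by
    intro J hJ
    refine ser_gen (Q := fun H => LI H → BS J H) ?_ h0 hp hs hs0 ?_
    · obtain ⟨L₀, hL₀⟩ := fin_tail hJ
      obtain ⟨L₁, hL₁⟩ := Pool.Agent.Helper60.MM.main_fin_M hJ
      refine ⟨max L₀ L₁, fun {L} hL {H₁} h1 h1p => ?_⟩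
      filter_upwards [hL₀ ((le_max_left _ _).trans hL) h1 h1p, hL₁ L ((le_max_right _ _).trans hL) h1 h1p] with w hw hw2 hr hLI
      exact bs_of_tail (Hw_smooth h1 w) (Hw_per h1p w) hr hLI hJ (hw hr) (hw2 hr)
    · refine imp_meas (Li := LI) (P := fun H => BS J H) h0 hp hs (li_meas h0 hp hs) ?_
      have hset : {x : ℕ → I × I | BS J (Hx H₀ s x)} = ⋃ C : ℕ, ⋂ N : ℕ, ⋂ _ : C ≤ N, {x : ℕ → I × I |
          mS (2 ^ N) (fun y => y ^ (2 * J)) (Hx H₀ s x) ≤ C} := by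
        ext x
        simp only [BS, mem_ofPred_eq, mem_iUnion, mem_iInter]
      rw [hset]
      exact MeasurableSet.iUnion fun C => MeasurableSet.iInter fun N => MeasurableSet.iInter fun _ =>
        measurableSet_le (mS_meas h0 hp hs _ (continuous_pow _)) measurable_const
  have hF' := ae_all_iff.2 fun j => ae_all_iff.2 fun K => hF j K
  have hS' := ae_all_iff.2 fun j => ae_all_iff.2 fun K => hS j K
  have hB' := ae_all_iff.2 fun J : ℕ => hB (J + 3) (by omega)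
  filter_upwards [hF', hS', hB', li_ser h0 hp hs hs0] with x h1 h2 h3 h4 hr
  refine ⟨fun j K => ⟨h1 j K hr h4, h2 j K hr h4⟩, fun J => ?_⟩
  rcases le_total J 3 with hJ | hJ
  · exact bs_low zs_facts hJ (h3 0 hr h4)
  · obtain ⟨i, rfl⟩ := Nat.exists_eq_add_of_le hJ
    rw [add_comm]
    exact h3 i hr h4

end Pool.Agent.Helper68.XL
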